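import Mathlib

set_option autoImplicit false

namespace Pool.Agent.Lib.helper28.MatrixTree

open Matrix Finset

variable {V : Type} [Fintype V] [DecidableEq V]

/-- weighted Laplacian -/
def lap (w : Sym2 V → ℝ) : Matrix V V ℝ :=
  Matrix.of fun u v => (if u = v then ∑ t, w s(u, t) else 0) - w s(u, v)

/-- parent functions with a potential -/
def Acy (r : V) (f : V → V) : Prop := ∃ d : V → ℕ, ∀ u, u ≠ r → d (f u) < d u

/-- rows of the parent matrix -/
def prow (r u v : V) : V → ℝ := if u = r then Pi.single r 1 else Pi.single u 1 - Pi.single v 1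

lemma det_acy (r : V) (f : V → V) (h : Acy r f) :
    (Matrix.of fun u => prow r u (f u)).det = 1 := by
  obtain ⟨d, hd⟩ := h
  have hb : BlockTriangular (Matrix.of fun u => prow r u (f u)) (OrderDual.toDual ∘ d) := by
    intro i j hij
    have hij' : d i < d j := hij
    have h1 : j ≠ i := by rintro rfl; omega
    simp only [Matrix.of_apply, prow]
    split_ifs with hi
    · subst hi; simp [h1]
    · have h2 : j ≠ f i := by
        rintro rfl
        have := hd i hi; omega
      simp [h1, h2]
  rw [hb.det]
  refine Finset.prod_eq_one fun a _ => ?_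
  have : toSquareBlock (Matrix.of fun u => prow r u (f u)) (OrderDual.toDual ∘ d) a = 1 := by
    ext ⟨i, hi⟩ ⟨j, hj⟩
    have hij : d i = d j := hi.trans hj.symm
    simp only [toSquareBlock_def, Matrix.of_apply, prow, Matrix.one_apply, Subtype.mk.injEq]
    by_cases hir : i = r
    · subst hir; simp [Pi.single_apply, eq_comm]
    · have h2 : j ≠ f i := by
        rintro rfl
        have := hd i hir; omega
      simp [hir, h2, Pi.single_apply, eq_comm]
  rw [this, det_one]

lemma det_nacy (r : V) (f : V → V) (h : ¬ Acy r f) :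
    (Matrix.of fun u => prow r u (f u)).det = 0 := by
  classical
  have hS : ∃ u, ¬ ∃ k, f^[k] u = r := by
    by_contra hc
    push Not at hc
    refine h ⟨fun u => Nat.find (hc u), fun u hu => ?_⟩
    have h0 : Nat.find (hc u) ≠ 0 := by
      intro h0
      have := Nat.find_spec (hc u)
      rw [h0] at this
      exact hu this
    obtain ⟨k, hk⟩ := Nat.exists_eq_succ_of_ne_zero h0
    have h1 := Nat.find_spec (hc u)
    rw [hk, Function.iterate_succ_apply] at h1
    have := Nat.find_min' (hc (f u)) h1
    simp only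
    omega
  rw [← Matrix.exists_mulVec_eq_zero_iff]
  refine ⟨fun u => if ∃ k, f^[k] u = r then 0 else 1, fun h0 => ?_, ?_⟩
  · obtain ⟨u, hu⟩ := hS
    have := congrFun h0 u
    simp [hu] at this
  · funext u
    simp only [Matrix.mulVec, Matrix.of_apply, prow, Pi.zero_apply]
    change (if u = r then Pi.single r 1 else Pi.single u 1 - Pi.single (f u) 1 : V → ℝ) ⬝ᵥ _ = 0
    split_ifs with hu
    · rw [single_dotProduct, if_pos ⟨0, rfl⟩]; simp
    · rw [sub_dotProduct, single_dotProduct, single_dotProduct]
      have : (∃ k, f^[k] u = r) ↔ ∃ k, f^[k] (f u) = r := by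
        constructor
        · rintro ⟨k, hk⟩
          cases k with
          | zero => exact absurd hk hu
          | succ k => exact ⟨k, hk⟩
        · rintro ⟨k, hk⟩
          exact ⟨k + 1, hk⟩
      simp only [this, sub_self]

open Classical in
lemma det_expand (w : Sym2 V → ℝ) (r : V) :
    ((lap w).updateRow r (Pi.single r 1)).det =
      ∑ f ∈ (univ : Finset (V → V)).filter (fun f => f r = r ∧ Acy r f),
        ∏ u ∈ univ.erase r, w s(u, f u) := by
  let c : V → V → ℝ := fun u v => if u = r then (if v = r then 1 else 0) else w s(u, v)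
  have h1 : (lap w).updateRow r (Pi.single r 1) = fun u => ∑ v, c u v • prow r u v := by
    funext u
    by_cases hu : u = r
    · subst hu
      simp [c, prow]
    · rw [Matrix.updateRow_ne hu]
      funext v
      simp only [c, prow, hu, if_false, lap, Matrix.of_apply, Finset.sum_apply, Pi.smul_apply,
        Pi.sub_apply, smul_eq_mul, mul_sub, Finset.sum_sub_distrib, Pi.single_apply]
      congr 1
      · by_cases h : u = v
        · subst h; simp
        · simp [h, Ne.symm h]
      · simp
  rw [h1]
  change (detRowAlternating : (V → ℝ) [⋀^V]→ₗ[ℝ] ℝ).toMultilinearMap _ = _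
  rw [MultilinearMap.map_sum, Finset.sum_filter]
  refine Finset.sum_congr rfl fun f _ => ?_
  rw [MultilinearMap.map_smul_univ]
  change _ • (Matrix.of fun u => prow r u (f u)).det = _
  rw [← Finset.mul_prod_erase univ _ (Finset.mem_univ r)]
  have h2 : ∏ u ∈ univ.erase r, c u (f u) = ∏ u ∈ univ.erase r, w s(u, f u) :=
    Finset.prod_congr rfl fun u hu => by simp [c, Finset.ne_of_mem_erase hu]
  rw [h2]
  by_cases ha : Acy r f
  · rw [det_acy r f ha]
    by_cases hr : f r = r <;> simp [c, hr, ha]
  · rw [det_nacy r f ha]; simp [ha]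

/-- edge set of a parent function -/
def edges (r : V) (f : V → V) : Finset (Sym2 V) := (univ.erase r).image fun u => s(u, f u)

lemma mem_edges {r : V} {f : V → V} {e : Sym2 V} :
    e ∈ edges r f ↔ ∃ u, u ≠ r ∧ s(u, f u) = e := by
  simp [edges]

lemma edges_inj {r : V} {f : V → V} (h : Acy r f) :
    Set.InjOn (fun u => s(u, f u)) (univ.erase r : Finset V) := by
  obtain ⟨d, hd⟩ := h
  intro u hu v hv huv
  have hu' : u ≠ r := Finset.ne_of_mem_erase hu
  have hv' : v ≠ r := Finset.ne_of_mem_erase hv
  rcases Sym2.eq_iff.1 huv with ⟨h1, _⟩ | ⟨h1, h2⟩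
  · exact h1
  · have a := hd u hu'
    have b := hd v hv'
    rw [h2] at a; rw [← h1] at b; omega

lemma edges_card {r : V} {f : V → V} (h : Acy r f) : (edges r f).card + 1 = Fintype.card V := by
  rw [edges, Finset.card_image_of_injOn (edges_inj h), Finset.card_erase_add_one (mem_univ r),
    Finset.card_univ]

lemma edges_nd {r : V} {f : V → V} (h : Acy r f) : ∀ e ∈ edges r f, ¬ e.IsDiag := by
  obtain ⟨d, hd⟩ := h
  intro e he
  obtain ⟨u, hu, rfl⟩ := mem_edges.1 he
  rw [Sym2.mk_isDiag_iff]
  intro h
  have := hd u hu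
  rw [← h] at this; omega

omit [DecidableEq V] [Fintype V] in
lemma edgeSet_nd {T : Finset (Sym2 V)} (h : ∀ e ∈ T, ¬ e.IsDiag) :
    (SimpleGraph.fromEdgeSet (T : Set (Sym2 V))).edgeSet = T := by
  rw [SimpleGraph.edgeSet_fromEdgeSet]
  ext e
  simp only [Set.mem_sdiff, Finset.mem_coe, Sym2.mem_diagSet]
  exact ⟨fun h' => h'.1, fun h' => ⟨h', h e h'⟩⟩

lemma edges_tree {r : V} {f : V → V} (h : Acy r f) :
    (SimpleGraph.fromEdgeSet (edges r f : Set (Sym2 V))).IsTree := by
  rw [SimpleGraph.isTree_iff_connected_and_card, edgeSet_nd (edges_nd h)]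
  refine ⟨?_, by simpa using edges_card h⟩
  obtain ⟨d, hd⟩ := h
  have key : ∀ k u, d u = k → (SimpleGraph.fromEdgeSet (edges r f : Set (Sym2 V))).Reachable u r := by
    intro k
    induction k using Nat.strong_induction_on with
    | _ k ih =>
      intro u hu
      by_cases hur : u = r
      · subst hur; rfl
      · have h1 := hd u hur
        have h2 : (SimpleGraph.fromEdgeSet (edges r f : Set (Sym2 V))).Adj u (f u) := by
          rw [SimpleGraph.fromEdgeSet_adj]
          refine ⟨mem_edges.2 ⟨u, hur, rfl⟩, fun h => ?_⟩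
          rw [← h] at h1; omega
        exact h2.reachable.trans (ih _ (hu ▸ h1) _ rfl)
  have : Nonempty V := ⟨r⟩
  exact ⟨fun u v => (key _ u rfl).trans (key _ v rfl).symm⟩

lemma edges_eq {r : V} {f g : V → V} (hf : Acy r f) (hfr : f r = r) (hgr : g r = r)
    (h : edges r f = edges r g) : f = g := by
  obtain ⟨d, hd⟩ := hf
  have key : ∀ k u, d u = k → f u = g u := by
    intro k
    induction k using Nat.strong_induction_on with
    | _ k ih =>
      intro u hu
      by_cases hur : u = r
      · subst hur; rw [hfr, hgr]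
      · have h1 : s(u, f u) ∈ edges r g := h ▸ mem_edges.2 ⟨u, hur, rfl⟩
        obtain ⟨v, hv, hv2⟩ := mem_edges.1 h1
        rcases Sym2.eq_iff.1 hv2 with ⟨h2, h3⟩ | ⟨h2, h3⟩
        · rw [← h3, h2]
        · exfalso
          have a := hd u hur
          have b := hd v hv
          have c := ih (d v) (by rw [h2, ← hu]; exact a) v rfl
          rw [c, h3] at b
          rw [← h2] at a
          omega
  funext u
  exact key _ u rfl

lemma edges_surj (r : V) {T : Finset (Sym2 V)} (hT : ∀ e ∈ T, ¬ e.IsDiag)
    (h : (SimpleGraph.fromEdgeSet (T : Set (Sym2 V))).IsTree) :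
    ∃ f : V → V, (f r = r ∧ Acy r f) ∧ edges r f = T := by
  set G := SimpleGraph.fromEdgeSet (T : Set (Sym2 V)) with hG
  have key : ∀ u, ∃ v, (u = r → v = r) ∧ (u ≠ r → G.Adj u v ∧ G.dist v r < G.dist u r) := by
    intro u
    by_cases hu : u = r
    · exact ⟨r, fun _ => rfl, fun h => absurd hu h⟩
    obtain ⟨p, hp⟩ := h.connected.exists_walk_length_eq_dist u r
    cases p with
    | nil => exact absurd rfl hu
    | cons hadj q =>
      refine ⟨_, fun h => absurd h hu, fun _ => ⟨hadj, ?_⟩⟩
      have := SimpleGraph.dist_le q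
      simp only [SimpleGraph.Walk.length_cons] at hp
      omega
  choose f hf1 hf2 using key
  have ha : Acy r f := ⟨fun u => G.dist u r, fun u hu => (hf2 u hu).2⟩
  refine ⟨f, ⟨hf1 r rfl, ha⟩, Finset.eq_of_subset_of_card_le (fun e he => ?_) ?_⟩
  · obtain ⟨u, hu, rfl⟩ := mem_edges.1 he
    have := (hf2 u hu).1
    rw [hG, SimpleGraph.fromEdgeSet_adj] at this
    exact this.1
  · have h1 := edges_card ha
    have h2 := (SimpleGraph.isTree_iff_connected_and_card.1 h).2
    rw [hG, edgeSet_nd hT] at h2
    simp only [SetLike.coe_sort_coe, Nat.card_eq_fintype_card, Fintype.card_coe] at h2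
    omega

open Classical in
/-- weighted spanning tree enumerator -/
noncomputable def tau (w : Sym2 V → ℝ) : ℝ :=
  ∑ T ∈ (univ : Finset (Finset (Sym2 V))).filter
    (fun T : Finset (Sym2 V) => (SimpleGraph.fromEdgeSet (T : Set (Sym2 V))).IsTree), ∏ e ∈ T, w e

open Classical in
/-- matrix tree theorem, cofactor form -/
theorem matrix_tree (w : Sym2 V → ℝ) (hw : ∀ e : Sym2 V, e.IsDiag → w e = 0) (r : V) :
    ((lap w).updateRow r (Pi.single r 1)).det = tau w := by
  rw [det_expand, tau]
  rw [← Finset.sum_filter_add_sum_filter_not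
    ((univ : Finset (Finset (Sym2 V))).filter
      (fun T : Finset (Sym2 V) => (SimpleGraph.fromEdgeSet (T : Set (Sym2 V))).IsTree))
    (fun T => ∀ e ∈ T, ¬ e.IsDiag)]
  refine Eq.trans ?_ (add_zero _).symm |>.trans (congrArg₂ (· + ·) rfl (Finset.sum_eq_zero ?_).symm)
  · refine Finset.sum_bij (fun f _ => edges r f) ?_ ?_ ?_ ?_
    · intro f hf
      simp only [Finset.mem_filter, Finset.mem_univ, true_and] at hf ⊢
      exact ⟨edges_tree hf.2, edges_nd hf.2⟩
    · intro f hf g hg hfg
      simp only [Finset.mem_filter, Finset.mem_univ, true_and] at hf hg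
      exact edges_eq hf.2 hf.1 hg.1 hfg
    · intro T hT
      simp only [Finset.mem_filter, Finset.mem_univ, true_and] at hT
      obtain ⟨f, hf, rfl⟩ := edges_surj r hT.2 hT.1
      exact ⟨f, by simpa using hf, rfl⟩
    · intro f hf
      simp only [Finset.mem_filter, Finset.mem_univ, true_and] at hf
      rw [edges, Finset.prod_image (edges_inj hf.2)]
  · intro T hT
    have := (Finset.mem_filter.1 hT).2
    push Not at this
    obtain ⟨e, he, hd⟩ := this
    exact Finset.prod_eq_zero he (hw e hd)

lemma lap_row (w : Sym2 V → ℝ) (u : V) : ∑ v, lap w u v = 0 := by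
  simp [lap, Finset.sum_sub_distrib]

lemma lap_symm (w : Sym2 V → ℝ) (u v : V) : lap w u v = lap w v u := by
  simp only [lap, Matrix.of_apply]
  by_cases h : u = v
  · subst h; rfl
  · simp [h, Ne.symm h, Sym2.eq_swap]

/-- matrix tree theorem, symmetric form -/
theorem matrix_tree_J [Nonempty V] (w : Sym2 V → ℝ) (hw : ∀ e : Sym2 V, e.IsDiag → w e = 0) :
    (lap w + Matrix.of fun _ _ => (1 : ℝ)).det = (Fintype.card V : ℝ) ^ 2 * tau w := by
  obtain ⟨r⟩ := ‹Nonempty V›
  have hn : (Fintype.card V : ℝ) ≠ 0 := by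
    exact_mod_cast Fintype.card_ne_zero
  set n : ℝ := (Fintype.card V : ℝ) with hn'
  set A := lap w + Matrix.of fun _ _ => (1 : ℝ) with hA
  have h1 := det_updateRow_sum A r (fun _ => 1)
  have h2 : ∑ k, (1 : ℝ) • A k = fun _ => n := by
    funext v
    simp only [one_smul, Finset.sum_apply, hA, Matrix.add_apply, Matrix.of_apply,
      Finset.sum_add_distrib]
    simp only [lap_symm w _ v, lap_row]
    simp [hn']
  rw [h2, one_smul] at h1
  have h3 : (A.updateRow r fun _ => n).det = ((lap w).updateRow r fun _ => n).det := by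
    refine det_eq_of_forall_row_eq_smul_add_const (fun u => if u = r then 0 else n⁻¹) r (by simp) ?_
    intro i j
    by_cases hi : i = r
    · subst hi; simp
    · simp [hi, hA, hn]
  have h4 : ((lap w).updateRow r ((fun _ => n) - (n ^ 2) • Pi.single r 1)).det = 0 := by
    rw [← Matrix.exists_mulVec_eq_zero_iff]
    refine ⟨fun _ => 1, fun h => by simpa using congrFun h r, ?_⟩
    funext u
    by_cases hu : u = r
    · subst hu
      simp [Matrix.mulVec, dotProduct, Finset.sum_sub_distrib, Pi.single_apply, ← hn', sq]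
    · simp [Matrix.mulVec, dotProduct, Matrix.updateRow_ne hu, lap_row]
  have h5 : ((lap w).updateRow r fun _ => n).det =
      ((lap w).updateRow r (((fun _ => n) - (n ^ 2) • Pi.single r 1) + (n ^ 2) • Pi.single r 1)).det := by
    rw [sub_add_cancel]
  rw [← h1, h3, h5, det_updateRow_add, h4, det_updateRow_smul, matrix_tree w hw, zero_add]

end Pool.Agent.Lib.helper28.MatrixTree
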