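import Mathlib

namespace Pool.Agent.Lib.helper28.Zp

section cochains
variable {R : Type} [CommRing R] {P Q : Type}

/-- coboundary of a cochain on lists -/
def d : (List P → R) → List P → R
  | _, [] => 0
  | φ, a :: l => φ l - d (fun m => φ (a :: m)) l

/-- prism operator on cochains -/
def pr (f g : P → P) : (List P → R) → List P → R
  | _, [] => 0
  | φ, a :: l => φ (f a :: g a :: l.map g) - pr f g (fun m => φ (f a :: m)) l

theorem d_lin (c : R) (l : List P) : ∀ φ ψ : List P → R,
    d (fun m => c * φ m + ψ m) l = c * d φ l + d ψ l := by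
  induction l with
  | nil => intro φ ψ; simp [d]
  | cons a l ih => intro φ ψ; simp only [d]; rw [ih]; ring

theorem pr_lin (f g : P → P) (c : R) (l : List P) : ∀ φ ψ : List P → R,
    pr f g (fun m => c * φ m + ψ m) l = c * pr f g φ l + pr f g ψ l := by
  induction l with
  | nil => intro φ ψ; simp [pr]
  | cons a l ih => intro φ ψ; simp only [pr]; rw [ih]; ring

theorem d_zero (l : List P) : d (fun _ => (0 : R)) l = 0 := by
  induction l with
  | nil => rfl
  | cons a l ih => simp only [d, ih, sub_zero]

theorem pr_zero' (f g : P → P) (l : List P) : pr f g (fun _ => (0 : R)) l = 0 := by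
  induction l with
  | nil => rfl
  | cons a l ih => simp only [pr, ih, sub_zero]

theorem d_sub (l : List P) (φ ψ : List P → R) :
    d (fun m => φ m - ψ m) l = d φ l - d ψ l := by
  have := d_lin (-1) l ψ φ
  rw [show (fun m => φ m - ψ m) = fun m => -1 * ψ m + φ m from funext fun m => by ring, this]
  ring

theorem pr_sub (f g : P → P) (l : List P) (φ ψ : List P → R) :
    pr f g (fun m => φ m - ψ m) l = pr f g φ l - pr f g ψ l := by
  have := pr_lin f g (-1) l ψ φ
  rw [show (fun m => φ m - ψ m) = fun m => -1 * ψ m + φ m from funext fun m => by ring, this]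
  ring

def DL : Module.End R (List P → R) where
  toFun := d
  map_add' φ ψ := funext fun l => by
    have := d_lin 1 l φ ψ
    simp only [one_mul] at this
    exact this
  map_smul' c φ := funext fun l => by
    have := d_lin c l φ (fun _ => 0)
    simp only [add_zero, d_zero] at this
    exact this

def PL (f g : P → P) : Module.End R (List P → R) where
  toFun := pr f g
  map_add' φ ψ := funext fun l => by
    have := pr_lin f g 1 l φ ψ
    simp only [one_mul] at this
    exact this
  map_smul' c φ := funext fun l => by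
    have := pr_lin f g c l φ (fun _ => 0)
    simp only [add_zero, pr_zero'] at this
    exact this

/-- pull back along a map of lists -/
def pb (h : List P → List Q) : (List Q → R) →ₗ[R] (List P → R) := LinearMap.funLeft R R h

theorem pb_apply (h : List P → List Q) (φ : List Q → R) (l : List P) : pb h φ l = φ (h l) := rfl

theorem DL_apply (φ : List P → R) : DL φ = d φ := rfl

theorem d_map (g : P → Q) (l : List P) : ∀ φ : List Q → R,
    d (fun m => φ (m.map g)) l = d φ (l.map g) := by
  induction l with
  | nil => intro φ; simp [d]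
  | cons a l ih => intro φ; simp only [d, List.map_cons]; rw [← ih]

theorem dd (l : List P) : ∀ φ : List P → R, d (d φ) l = 0 := by
  induction l with
  | nil => intro φ; rfl
  | cons a l ih =>
    intro φ
    simp only [d]
    rw [d_sub l φ (d fun m => φ (a :: m)), ih]; ring

theorem prism (f g : P → P) (l : List P) : ∀ φ : List P → R,
    pr f g (d φ) l = φ (l.map g) - φ (l.map f) - d (pr f g φ) l := by
  induction l with
  | nil => intro φ; simp [d, pr]
  | cons a l ih =>
    intro φ
    simp only [d, pr, List.map_cons]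
    rw [pr_sub f g l φ (d fun m => φ (f a :: m)), ih,
      d_sub l (fun m => φ (f a :: g a :: m.map g)) (pr f g fun m => φ (f a :: m)),
      d_map g l (fun m => φ (f a :: g a :: m))]
    ring

theorem pr_zero (f g : P → P) (l : List P) : ∀ φ : List P → R,
    (∀ m : List P, m.length = l.length + 1 → (∀ x ∈ m, ∃ y ∈ l, x = f y ∨ x = g y) → φ m = 0) →
      pr f g φ l = 0 := by
  induction l with
  | nil => intro φ _; rfl
  | cons a l ih =>
    intro φ h
    simp only [pr]
    rw [h, ih, sub_zero]
    · intro m hm hx
      apply h _ (by simp [hm])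
      intro x hx'
      rcases List.mem_cons.1 hx' with rfl | hx'
      · exact ⟨a, by simp, Or.inl rfl⟩
      · obtain ⟨y, hy, e⟩ := hx x hx'
        exact ⟨y, by simp [hy], e⟩
    · simp
    · intro x hx'
      simp only [List.mem_cons, List.mem_map] at hx'
      rcases hx' with rfl | rfl | ⟨y, hy, rfl⟩
      · exact ⟨a, by simp, Or.inl rfl⟩
      · exact ⟨a, by simp, Or.inr rfl⟩
      · exact ⟨y, by simp [hy], Or.inr rfl⟩

theorem d_congr (l : List P) : ∀ φ ψ : List P → R,
    (∀ m, m.Sublist l → φ m = ψ m) → d φ l = d ψ l := by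
  induction l with
  | nil => intro _ _ _; rfl
  | cons a l ih =>
    intro φ ψ h
    simp only [d]
    rw [h l (List.sublist_cons_self a l), ih _ _ fun m hm => h _ (hm.cons_cons a)]

/-- normalised cochains -/
def Nm (φ : List P → R) : Prop := ∀ l1 a l2, φ (l1 ++ a :: a :: l2) = 0

theorem Nm_d {φ : List P → R} (h : Nm φ) : Nm (d φ) := by
  intro l1 a l2
  induction l1 generalizing φ with
  | nil =>
    simp only [List.nil_append, d]
    have : (fun m => φ (a :: a :: m)) = fun _ => 0 := funext fun m => h [] a m
    rw [this, d_zero]; ring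
  | cons b l1 ih =>
    simp only [List.cons_append, d]
    rw [h, ih (φ := fun m => φ (b :: m)) fun l1 a l2 => h (b :: l1) a l2, sub_zero]

/-- sign of the sorting permutation -/
def sgn (R : Type) [CommRing R] : List ℕ → R
  | [] => 1
  | a :: l => (-1) ^ (l.countP (fun b => decide (b < a))) * sgn R l

theorem neg_sq (k : ℕ) : ((-1 : R) ^ k) * (-1) ^ k = 1 := by
  rw [← mul_pow]; simp

theorem sgn_sq (l : List ℕ) : sgn R l * sgn R l = 1 := by
  induction l with
  | nil => simp [sgn]
  | cons a l ih =>
    simp only [sgn]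
    have := neg_sq (R := R) (l.countP (fun b => decide (b < a)))
    linear_combination (sgn R l * sgn R l) * this + ih

theorem sgn_sorted {l : List ℕ} (h : l.Pairwise (· ≤ ·)) : sgn R l = 1 := by
  induction l with
  | nil => rfl
  | cons a l ih =>
    rw [List.pairwise_cons] at h
    simp only [sgn]
    rw [ih h.2, List.countP_eq_zero.2 fun b hb => by simpa using h.1 b hb]
    simp

theorem sgn_swap {a b : ℕ} (h : a ≠ b) (m : List ℕ) :
    sgn R (b :: a :: m) = - sgn R (a :: b :: m) := by
  simp only [sgn, List.countP_cons]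
  rcases lt_or_gt_of_ne h with h | h
  · simp [h, not_lt.2 h.le, pow_succ]; ring
  · simp [h, not_lt.2 h.le, pow_succ]; ring

theorem d_perm {l l' : List ℕ} (h : l.Perm l') : ∀ φ : List ℕ → R,
    (∀ m m', m.Perm m' → sgn R m * φ m = sgn R m' * φ m') →
      sgn R l * d φ l = sgn R l' * d φ l' := by
  induction h with
  | nil => intro _ _; rfl
  | @cons a l l' h ih =>
    intro φ hφ
    simp only [d, sgn]
    have h1 := hφ _ _ h
    have h2 := ih (fun m => φ (a :: m)) fun m m' e => by
      have := hφ _ _ (e.cons a)
      simp only [sgn] at this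
      rw [e.countP_eq] at this
      have s := neg_sq (R := R) (m'.countP (fun b => decide (b < a)))
      linear_combination (-1) ^ (m'.countP (fun b => decide (b < a))) * this -
        (sgn R m * φ (a :: m) - sgn R m' * φ (a :: m')) * s
    rw [h.countP_eq]
    linear_combination (-1) ^ (l'.countP (fun b => decide (b < a))) * (h1 - h2)
  | swap a b l =>
    intro φ hφ
    by_cases hab : a = b
    · rw [hab]
    have e : (fun m => φ (b :: a :: m)) = fun m => (-1) * φ (a :: b :: m) + 0 := by
      funext m
      have := hφ _ _ (List.Perm.swap a b m)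
      rw [sgn_swap hab] at this
      have s := sgn_sq (R := R) (a :: b :: m)
      linear_combination (-sgn R (a :: b :: m)) * this -
        (φ (b :: a :: m) + φ (a :: b :: m)) * s
    rw [sgn_swap hab]
    simp only [d]
    rw [e, d_lin, d_zero]; ring
  | trans _ _ ih1 ih2 => intro φ hφ; rw [ih1 φ hφ, ih2 φ hφ]

/-- sorted list -/
def srt (l : List ℕ) : List ℕ := l.mergeSort (fun a b => decide (a ≤ b))

theorem srt_perm (l : List ℕ) : (srt l).Perm l := List.mergeSort_perm _ _

theorem srt_pw (l : List ℕ) : (srt l).Pairwise (· ≤ ·) := by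
  have := List.pairwise_mergeSort (le := fun a b : ℕ => decide (a ≤ b))
    (fun a b c => by simp only [decide_eq_true_eq]; omega)
    (fun a b => by simp only [Bool.or_eq_true, decide_eq_true_eq]; omega) l
  simpa [srt] using this

theorem srt_eq {l m : List ℕ} (h : m.Perm l) (hm : m.Pairwise (· ≤ ·)) : srt l = m :=
  List.Perm.eq_of_pairwise (fun _ _ _ _ => le_antisymm) (srt_pw l) hm ((srt_perm l).trans h.symm)

/-- alternating extension -/
def hat (c : ℕ → Q) : (List Q → R) →ₗ[R] (List ℕ → R) where
  toFun φ l := sgn R l * φ ((srt l).map c)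
  map_add' φ ψ := funext fun l => by simp [mul_add]
  map_smul' a φ := funext fun l => by simp; ring

theorem hat_apply (c : ℕ → Q) (φ : List Q → R) (l : List ℕ) :
    hat c φ l = sgn R l * φ ((srt l).map c) := rfl

theorem d_hat (c : ℕ → Q) (φ : List Q → R) (l : List ℕ) : d (hat c φ) l = hat c (d φ) l := by
  have h := d_perm (srt_perm l) (hat c φ) fun m m' e => by
    rw [hat_apply, hat_apply, ← mul_assoc, ← mul_assoc, sgn_sq, sgn_sq,
      srt_eq ((srt_perm m').trans e.symm) (srt_pw m')]
  rw [sgn_sorted (srt_pw l), one_mul,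
    d_congr (srt l) (hat c φ) (fun m => φ (m.map c)) fun m hm => by
      have := (srt_pw l).sublist hm
      rw [hat_apply, srt_eq (List.Perm.refl m) this, sgn_sorted this, one_mul], d_map] at h
  rw [hat_apply, h, ← mul_assoc, sgn_sq, one_mul]

theorem sgn_map (ν : ℕ → ℕ) (l : List ℕ) (h : ∀ a ∈ l, ∀ b ∈ l, ν a < ν b ↔ a < b) :
    sgn R (l.map ν) = sgn R l := by
  induction l with
  | nil => rfl
  | cons a l ih =>
    simp only [List.map_cons, sgn]
    rw [ih fun x hx y hy => h x (by simp [hx]) y (by simp [hy]), List.countP_map]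
    congr 2
    exact List.countP_congr fun b hb => by
      simpa using h b (by simp [hb]) a (by simp)

theorem hat_map (c : ℕ → Q) (g : Q → Q) (ν : ℕ → ℕ) (hc : ∀ a, c (ν a) = g (c a))
    (φ : List Q → R) (l : List ℕ) (h : ∀ a ∈ l, ∀ b ∈ l, ν a < ν b ↔ a < b) :
    hat c φ (l.map ν) = hat c (pb (List.map g) φ) l := by
  have e : srt (l.map ν) = (srt l).map ν := by
    apply srt_eq ((srt_perm l).map ν)
    rw [List.pairwise_map]
    refine (srt_pw l).imp_of_mem fun {a b} ha hb hab => ?_
    have := h b ((srt_perm l).subset hb) a ((srt_perm l).subset ha)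
    omega
  rw [hat_apply, hat_apply, sgn_map ν l h, e, pb_apply, List.map_map, List.map_map]
  congr 3
  exact funext hc

theorem adj_of_not_nodup {l : List ℕ} (h : l.Pairwise (· ≤ ·)) (hn : ¬ l.Nodup) :
    ∃ l1 a l2, l = l1 ++ a :: a :: l2 := by
  induction l with
  | nil => simp at hn
  | cons a l ih =>
    rw [List.pairwise_cons] at h
    by_cases h2 : l.Nodup
    · have ha : a ∈ l := by
        by_contra hc
        exact hn (List.nodup_cons.2 ⟨hc, h2⟩)
      cases l with
      | nil => simp at ha
      | cons b l =>
        have e1 := h.1 b (by simp)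
        have e2 : b ≤ a := by
          rcases List.mem_cons.1 ha with rfl | ha
          · exact le_rfl
          · exact (List.pairwise_cons.1 h.2).1 a ha
        exact ⟨[], a, l, by rw [le_antisymm e1 e2]; rfl⟩
    · obtain ⟨l1, b, l2, e⟩ := ih h.2 h2
      exact ⟨a :: l1, b, l2, by rw [e]; rfl⟩

theorem hat_zero (c : ℕ → Q) {φ : List Q → R} (hφ : Nm φ) {l : List ℕ} (hn : ¬ l.Nodup) :
    hat c φ l = 0 := by
  obtain ⟨l1, a, l2, e⟩ := adj_of_not_nodup (srt_pw l) fun h => hn ((srt_perm l).nodup_iff.1 h)
  rw [hat_apply, e, List.map_append, List.map_cons, List.map_cons, hφ, mul_zero]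

end cochains

end Pool.Agent.Lib.helper28.Zp
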