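import Pool.Agent.Lib.helper28.ZpA

namespace Pool.Agent.Lib.helper28.Zp

section ops
variable {A : Type} [Ring A]

def sig (p : ℕ) (G : A) : A := ∑ i ∈ Finset.range p, G ^ i

def rho (p : ℕ) (G : A) : A := ∑ i ∈ Finset.range p, ∑ j ∈ Finset.range i, G ^ j

def sop (p : ℕ) (G : A) (k : ℕ) : A := if k % 2 = 0 then G - 1 else sig p G

def rop (p : ℕ) (G : A) (k : ℕ) : A := if k % 2 = 0 then rho p G else 1

theorem rop_sop {p : ℕ} (G : A) (hp : (p : A) = 0) (k : ℕ) : rop p G k * sop p G k = sig p G := by
  unfold rop sop
  split_ifs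
  · simp only [rho, sig, Finset.sum_mul]
    have : ∀ i, ∑ j ∈ Finset.range i, G ^ j * (G - 1) = G ^ i - 1 := fun i => by
      rw [← Finset.sum_mul, geom_sum_mul]
    simp [this, Finset.sum_sub_distrib, hp]
  · simp

theorem sop_rop {p : ℕ} (G : A) (hp : (p : A) = 0) (k : ℕ) : sop p G k * rop p G k = sig p G := by
  unfold rop sop
  split_ifs
  · simp only [rho, sig, Finset.mul_sum]
    have : ∀ i, ∑ j ∈ Finset.range i, (G - 1) * G ^ j = G ^ i - 1 := fun i => by
      rw [← Finset.mul_sum, mul_geom_sum]
    simp [this, Finset.sum_sub_distrib, hp]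
  · simp

theorem sop_sop {p : ℕ} {G : A} (h : G ^ p = 1) (k : ℕ) : sop p G k * sop p G (k + 1) = 0 := by
  unfold sop
  rcases Nat.mod_two_eq_zero_or_one k with e | e
  · rw [if_pos e, if_neg (by omega), sig, mul_geom_sum, h, sub_self]
  · rw [if_neg (by omega), if_pos (by omega), sig, geom_sum_mul, h, sub_self]

theorem sop_two (p : ℕ) (G : A) (k : ℕ) : sop p G (k + 2) = sop p G k := by
  unfold sop; simp

theorem comm_sig {D G : A} (h : Commute D G) (p : ℕ) : Commute D (sig p G) :=
  Commute.sum_right _ _ _ fun _ _ => h.pow_right _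

theorem comm_sop {D G : A} (h : Commute D G) (p k : ℕ) : Commute D (sop p G k) := by
  unfold sop
  split_ifs
  · exact h.sub_right (Commute.one_right _)
  · exact comm_sig h p

theorem comm_rop {D G : A} (h : Commute D G) (p k : ℕ) : Commute D (rop p G k) := by
  unfold rop
  split_ifs
  · exact Commute.sum_right _ _ _ fun _ _ => Commute.sum_right _ _ _ fun _ _ => h.pow_right _
  · exact Commute.one_right _

end ops

section act
variable {R : Type} [CommRing R] {P : Type}

/-- action of a self-map on cochains -/
def GA (R : Type) [CommRing R] (g : P → P) : Module.End R (List P → R) := pb (List.map g)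

theorem GA_apply (g : P → P) (φ : List P → R) (l : List P) : GA R g φ l = φ (l.map g) := rfl

theorem GA_pow (g : P → P) (i : ℕ) (φ : List P → R) (l : List P) :
    (GA R g ^ i) φ l = φ (l.map g^[i]) := by
  induction i generalizing l with
  | zero => simp
  | succ i ih =>
    rw [pow_succ', Module.End.mul_apply, GA_apply, ih, List.map_map, Function.iterate_succ]

theorem comm_DG (g : P → P) : Commute (DL : Module.End R (List P → R)) (GA R g) := by
  ext1 φ
  funext l
  exact d_map g l φ

theorem GA_pow_one {g : P → P} {p : ℕ} (h : g^[p] = id) : GA R g ^ p = 1 := by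
  ext1 φ
  funext l
  rw [GA_pow, h]; simp

theorem sig_apply (g : P → P) (p : ℕ) (φ : List P → R) (l : List P) :
    sig p (GA R g) φ l = ∑ i ∈ Finset.range p, φ (l.map g^[i]) := by
  simp [sig, LinearMap.sum_apply, Finset.sum_apply, GA_pow]

theorem Nm_sig (g : P → P) (p : ℕ) {φ : List P → R} (h : Nm φ) : Nm (sig p (GA R g) φ) := by
  intro l1 a l2
  rw [sig_apply]
  refine Finset.sum_eq_zero fun i _ => ?_
  rw [List.map_append, List.map_cons, List.map_cons, h]

end act

section solve
variable {p : ℕ} [NeZero p] {R : Type} [CommRing R]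

omit [NeZero p] in
theorem iter_add (i : ℕ) : (fun x : ZMod p => x + 1)^[i] = fun x : ZMod p => x + (i : ZMod p) := by
  induction i with
  | zero => funext x; simp
  | succ i ih => funext x; rw [Function.iterate_succ_apply', ih]; push_cast; ring

theorem solve_sig (φ : List (ZMod p) → R) (h0 : φ [] = 0) (hn : Nm φ)
    (h : ∀ l, φ (l.map (· + 1)) = φ l) :
    ∃ ψ, Nm ψ ∧ sig p (GA R (· + 1)) ψ = φ := by
  have hi : ∀ (i : ℕ) l, φ (l.map (· + (i : ZMod p))) = φ l := by
    intro i
    induction i with
    | zero => intro l; simp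
    | succ i ih =>
      intro l
      rw [← ih l, ← h (l.map (· + (i : ZMod p))), List.map_map]
      congr 2
      funext x; simp [add_assoc]
  refine ⟨fun l => if l.head? = some 0 then φ l else 0, fun l1 a l2 => by simp [hn l1 a l2], ?_⟩
  funext l
  rw [sig_apply]
  simp only [iter_add, hi]
  cases l with
  | nil => simp [h0]
  | cons g l =>
    rw [Finset.sum_eq_single (-g).val]
    · simp
    · intro i hi hne
      rw [if_neg]
      simp only [List.map_cons, List.head?_cons, Option.some.injEq]
      intro e
      apply hne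
      have : (i : ZMod p) = -g := by linear_combination e
      rw [← this, ZMod.val_cast_of_lt (Finset.mem_range.1 hi)]
    · intro h
      exact absurd (Finset.mem_range.2 (ZMod.val_lt _)) h

theorem solve_tau (φ : List (ZMod p) → R) (h0 : φ [] = 0) (hn : Nm φ)
    (h : ∀ l : List (ZMod p), ∑ i ∈ Finset.range p, φ (l.map (· + (i : ZMod p))) = 0) :
    ∃ ψ, Nm ψ ∧ ∀ l : List (ZMod p), ψ (l.map (· + 1)) - ψ l = φ l := by
  refine ⟨fun l => ∑ j ∈ Finset.range (l.headD 0).val,
    φ (l.map (fun x => x - l.headD 0 + (j : ZMod p))), fun l1 a l2 => ?_, fun l => ?_⟩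
  · refine Finset.sum_eq_zero fun i _ => ?_
    rw [List.map_append, List.map_cons, List.map_cons, hn]
  · cases l with
    | nil => simp [h0]
    | cons g l =>
      have e1 : ((g :: l).map (· + 1)).headD 0 = g + 1 := rfl
      have e2 : (g :: l).headD 0 = g := rfl
      simp only [e1, e2, List.map_map]
      have e3 : ∀ j : ℕ, ((fun x : ZMod p => x - (g + 1) + (j : ZMod p)) ∘ fun x => x + 1) =
          fun x => x - g + (j : ZMod p) := fun j => funext fun x => by simp only [Function.comp]; ring
      simp only [e3]
      have e4 : φ ((g :: l).map fun x => x - g + (g.val : ZMod p)) = φ (g :: l) := by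
        simp
      have hv := ZMod.val_lt g
      have e5 : g + 1 = ((g.val + 1 : ℕ) : ZMod p) := by simp
      by_cases hc : g.val + 1 < p
      · rw [e5, ZMod.val_cast_of_lt hc, Finset.sum_range_succ, e4]; ring
      · have e6 : g.val + 1 = p := by omega
        have e7 := h ((g :: l).map (· - g))
        simp only [List.map_map] at e7
        have e8 : (g + 1).val = 0 := by rw [e5, e6]; simp
        rw [e8]
        have e9 : Finset.range p = Finset.range (g.val + 1) := by rw [e6]
        rw [e9, Finset.sum_range_succ] at e7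
        simp only [Function.comp_def] at e7
        rw [e4] at e7
        simp only [Finset.range_zero, Finset.sum_empty]
        linear_combination -e7

theorem solve (k : ℕ) (φ : List (ZMod p) → R) (h0 : φ [] = 0) (hn : Nm φ)
    (h : sop p (GA R (· + 1)) (k + 1) φ = 0) :
    ∃ ψ, Nm ψ ∧ sop p (GA R (· + 1)) k ψ = φ := by
  unfold sop at h ⊢
  rcases Nat.mod_two_eq_zero_or_one k with e | e
  · rw [if_neg (by omega)] at h
    rw [if_pos e]
    obtain ⟨ψ, h1, h2⟩ := solve_tau φ h0 hn fun l => by
      have := congrFun h l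
      rw [sig_apply] at this
      simpa only [iter_add, Pi.zero_apply] using this
    exact ⟨ψ, h1, funext fun l => h2 l⟩
  · rw [if_pos (by omega)] at h
    rw [if_neg (by omega)]
    exact solve_sig φ h0 hn fun l => sub_eq_zero.1 (congrFun h l)

end solve

end Pool.Agent.Lib.helper28.Zp
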