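import Pool.Agent.Lib.helper28.ZpB

namespace Pool.Agent.Lib.helper28.Zp

variable {p : ℕ} [NeZero p] {n : ℕ}

abbrev E (n p : ℕ) := Fin (n + 1) × ZMod p → ℝ

/-- the join of `k + 1` copies of `ZMod p` -/
def S (n p : ℕ) [NeZero p] (k : ℕ) : Set (E n p) :=
  {x | (∀ i, 0 ≤ x i) ∧ ∑ i, x i = 1 ∧ (∀ i c c', c ≠ c' → x (i, c) * x (i, c') = 0) ∧
    ∀ (i : Fin (n + 1)) c, k < (i : ℕ) → x (i, c) = 0}

def sh (x : E n p) : E n p := fun q => x (q.1, q.2 - 1)

def Good (n p : ℕ) [NeZero p] (k : ℕ) (δ : ℝ) (l : List (E n p)) : Prop :=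
  l.length = k + 1 ∧ (∀ x ∈ l, x ∈ S n p k) ∧ ∀ x ∈ l, ∀ y ∈ l, dist x y ≤ δ

def shE (n p : ℕ) : Fin (n + 1) × ZMod p ≃ Fin (n + 1) × ZMod p :=
  Equiv.prodCongr (Equiv.refl _) (Equiv.subRight 1)

theorem S_sh {k : ℕ} {x : E n p} (h : x ∈ S n p k) : sh x ∈ S n p k := by
  refine ⟨fun i => h.1 _, ?_, fun i c c' hc => h.2.2.1 i _ _ fun e => hc (sub_left_injective e),
    fun i c hi => h.2.2.2 i _ hi⟩
  rw [← h.2.1]
  exact Equiv.sum_comp (shE n p) x

theorem dist_sh (x y : E n p) : dist (sh x) (sh y) ≤ dist x y :=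
  (dist_pi_le_iff dist_nonneg).2 fun _ => dist_le_pi_dist x y _

omit [NeZero p] in
theorem sh_iter (i : ℕ) (x : E n p) : sh^[i] x = fun q => x (q.1, q.2 - i) := by
  induction i with
  | zero => funext q; simp
  | succ i ih =>
    rw [Function.iterate_succ_apply', ih]
    funext q
    simp only [sh]
    congr 2
    push_cast; ring

omit [NeZero p] in
theorem sh_p : (sh : E n p → E n p)^[p] = id := by
  funext x
  rw [sh_iter]
  funext q
  simp

theorem S_mono {k : ℕ} {x : E n p} (h : x ∈ S n p k) : x ∈ S n p n :=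
  ⟨h.1, h.2.1, h.2.2.1, fun j _ hj => absurd j.2 (by omega)⟩

theorem S_norm {k : ℕ} {x : E n p} (h : x ∈ S n p k) : ‖x‖ ≤ 1 := by
  rw [pi_norm_le_iff_of_nonneg zero_le_one]
  intro j
  rw [← h.2.1, Real.norm_eq_abs, abs_of_nonneg (h.1 j)]
  exact Finset.single_le_sum (f := x) (fun i _ => h.1 i) (Finset.mem_univ j)

theorem Good_sh {k : ℕ} {δ : ℝ} {l : List (E n p)} (h : Good n p k δ l) :
    Good n p k δ (l.map sh) := by
  refine ⟨by simp [h.1], ?_, ?_⟩
  · intro x hx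
    obtain ⟨y, hy, rfl⟩ := List.mem_map.1 hx
    exact S_sh (h.2.1 y hy)
  · intro x hx y hy
    obtain ⟨x, hx', rfl⟩ := List.mem_map.1 hx
    obtain ⟨y, hy', rfl⟩ := List.mem_map.1 hy
    exact (dist_sh x y).trans (h.2.2 x hx' y hy')

theorem S_single (i : Fin (n + 1)) : (Pi.single (i, 0) (1 : ℝ) : E n p) ∈ S n p i := by
  refine ⟨fun j => ?_, by simp, fun j c c' hc => ?_,
    fun j c hj => Pi.single_eq_of_ne (fun e => by simp [(Prod.mk.inj e).1] at hj) _⟩
  · rw [Pi.single_apply]; split_ifs <;> norm_num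
  · by_cases h : c = 0
    · rw [Pi.single_eq_of_ne (i' := (j, c')) (fun e => hc (by rw [h, (Prod.mk.inj e).2])), mul_zero]
    · rw [Pi.single_eq_of_ne (i' := (j, c)) (fun e => h (Prod.mk.inj e).2), zero_mul]

theorem S_step {k : ℕ} (hk : k + 1 < n + 1) {x : E n p} (h : x ∈ S n p k) {t : ℝ}
    (h0 : 0 ≤ t) (h1 : t ≤ 1) :
    (1 - t) • x + t • (Pi.single ((⟨k + 1, hk⟩ : Fin (n + 1)), (0 : ZMod p)) (1 : ℝ) : E n p) ∈
      S n p (k + 1) := by
  have he := S_single (p := p) (⟨k + 1, hk⟩ : Fin (n + 1))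
  have hne : ∀ j c, j ≠ (⟨k + 1, hk⟩ : Fin (n + 1)) →
      (Pi.single ((⟨k + 1, hk⟩ : Fin (n + 1)), (0 : ZMod p)) (1 : ℝ) : E n p) (j, c) = 0 :=
    fun j c hj => Pi.single_eq_of_ne (fun e => hj (Prod.mk.inj e).1) _
  set e : E n p := Pi.single ((⟨k + 1, hk⟩ : Fin (n + 1)), (0 : ZMod p)) (1 : ℝ) with hee
  refine ⟨fun j => ?_, ?_, fun j c c' hc => ?_, fun j c hj => ?_⟩
  · have := h.1 j
    have := he.1 j
    have : 0 ≤ 1 - t := by linarith
    simp only [Pi.add_apply, Pi.smul_apply, smul_eq_mul]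
    positivity
  · simp only [Pi.add_apply, Pi.smul_apply, smul_eq_mul, Finset.sum_add_distrib, ← Finset.mul_sum,
      h.2.1, he.2.1]
    ring
  · simp only [Pi.add_apply, Pi.smul_apply, smul_eq_mul]
    by_cases hj : j = ⟨k + 1, hk⟩
    · rw [h.2.2.2 j c (by simp [hj]), h.2.2.2 j c' (by simp [hj])]
      linear_combination t ^ 2 * he.2.2.1 j c c' hc
    · rw [hne j c hj, hne j c' hj]
      linear_combination (1 - t) ^ 2 * h.2.2.1 j c c' hc
  · simp [h.2.2.2 j c (by omega), he.2.2.2 j c hj]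

theorem extend {R : Type} [CommRing R] {k : ℕ} (hk : k + 1 < n + 1) {δ : ℝ} (hδ : 0 < δ)
    (Z : (List (E n p) → R) →ₗ[R] R)
    (z2 : ∀ φ, (∀ l, Good n p k (δ / 2) l → φ l = 0) → Z φ = 0) (z3 : ∀ φ, Z (DL φ) = 0) :
    ∃ T : (List (E n p) → R) →ₗ[R] R,
      (∀ φ, (∀ l, Good n p (k + 1) δ l → φ l = 0) → T φ = 0) ∧ ∀ φ, T (DL φ) = Z φ := by
  obtain ⟨N, hN⟩ := exists_nat_gt (4 / δ)
  have N0 : (0 : ℝ) < N := lt_trans (by positivity) hN
  have he := S_single (p := p) (⟨k + 1, hk⟩ : Fin (n + 1))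
  have hs := fun x (h : x ∈ S n p k) t h0 h1 => S_step hk (x := x) h (t := t) h0 h1
  set e : E n p := Pi.single ((⟨k + 1, hk⟩ : Fin (n + 1)), (0 : ZMod p)) (1 : ℝ) with hee
  let H : ℕ → E n p → E n p := fun j x => (1 - (j : ℝ) / N) • x + ((j : ℝ) / N) • e
  have H0 : H 0 = id := by funext x; simp [H]
  have HN : ∀ x, H N x = e := by intro x; simp [H, N0.ne']
  have HS : ∀ j ≤ N, ∀ x ∈ S n p k, H j x ∈ S n p (k + 1) := fun j hj x hx =>
    hs x hx _ (by positivity) (by rw [div_le_one N0]; exact_mod_cast hj)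
  have HD : ∀ i ≤ N, ∀ j : ℕ, |(j : ℝ) - i| ≤ 1 → ∀ x, ∀ y ∈ S n p k, dist x y ≤ δ / 2 →
      dist (H i x) (H j y) ≤ δ := by
    intro i hi j hj x y hy hxy
    have : H i x - H j y = (1 - (i : ℝ) / N) • (x - y) + (((j : ℝ) - i) / N) • (y - e) := by
      simp only [H, sub_div]
      module
    rw [dist_eq_norm, this]
    refine (norm_add_le _ _).trans ?_
    rw [norm_smul, norm_smul, ← dist_eq_norm x y, Real.norm_eq_abs, Real.norm_eq_abs, abs_div,
      abs_of_pos N0]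
    have a1 : (i : ℝ) / N ≤ 1 := by rw [div_le_one N0]; exact_mod_cast hi
    have a2 : 0 ≤ (i : ℝ) / N := by positivity
    rw [abs_of_nonneg (sub_nonneg.2 a1)]
    have a3 : ‖y - e‖ ≤ 2 := (norm_sub_le _ _).trans (by linarith [S_norm hy, S_norm he])
    have a4 : |(j : ℝ) - i| / N * ‖y - e‖ ≤ 1 / N * 2 := by gcongr
    have a5 : 1 / N * 2 ≤ δ / 2 := by
      rw [div_lt_iff₀ hδ] at hN
      rw [div_mul_eq_mul_div, div_le_iff₀ N0]
      linarith
    nlinarith [mul_nonneg a2 (dist_nonneg (x := x) (y := y))]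
  refine ⟨Z ∘ₗ pb (fun l => e :: l.map (H N)) -
    ∑ j ∈ Finset.range N, Z ∘ₗ PL (H j) (H (j + 1)), ?_, ?_⟩
  · intro φ hφ
    simp only [LinearMap.sub_apply, LinearMap.sum_apply, LinearMap.comp_apply]
    rw [Finset.sum_eq_zero, z2, sub_zero]
    · intro l hl
      have : ∀ x ∈ e :: l.map (H N), x = e := by
        intro x hx
        simp only [List.mem_cons, List.mem_map] at hx
        rcases hx with rfl | ⟨y, _, rfl⟩
        · rfl
        · exact HN y
      refine hφ _ ⟨by simp [hl.1], fun x hx => ?_, fun x hx y hy => ?_⟩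
      · rw [this x hx]; exact he
      · rw [this x hx, this y hy, dist_self]; exact hδ.le
    · intro j hj
      have hj := Finset.mem_range.1 hj
      refine z2 _ fun l hl => pr_zero _ _ l φ fun m hm hx => hφ m ⟨by rw [hm, hl.1], ?_, ?_⟩
      · intro x hx'
        obtain ⟨y, hy, rfl | rfl⟩ := hx x hx'
        · exact HS _ (by omega) _ (hl.2.1 y hy)
        · exact HS _ (by omega) _ (hl.2.1 y hy)
      · intro x hx' y hy'
        obtain ⟨x, hx1, rfl | rfl⟩ := hx x hx' <;> obtain ⟨y, hy1, rfl | rfl⟩ := hx y hy' <;>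
          exact HD _ (by omega) _ (by simp) _ _ (hl.2.1 y hy1) (hl.2.2 x hx1 y hy1)
  · intro φ
    have e1 : ∀ j, Z (PL (H j) (H (j + 1)) (DL φ)) =
        Z (GA R (H (j + 1)) φ) - Z (GA R (H j) φ) := by
      intro j
      have : PL (H j) (H (j + 1)) (DL φ) = GA R (H (j + 1)) φ - GA R (H j) φ -
          DL (PL (H j) (H (j + 1)) φ) := funext fun l => prism (H j) (H (j + 1)) l φ
      rw [this, map_sub, map_sub, z3, sub_zero]
    have e2 : Z (pb (fun l => e :: l.map (H N)) (DL φ)) = Z (GA R (H N) φ) := by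
      have : pb (R := R) (fun l => e :: l.map (H N)) (DL φ) = GA R (H N) φ -
          DL (fun m => φ (e :: m.map (H N))) := funext fun l => by
        show d φ (e :: l.map (H N)) = φ (l.map (H N)) - d (fun m => φ (e :: m.map (H N))) l
        rw [d_map (H N) l fun m => φ (e :: m)]
        rfl
      rw [this, map_sub, z3, sub_zero]
    simp only [LinearMap.sub_apply, LinearMap.sum_apply, LinearMap.comp_apply, e1, e2]
    rw [Finset.sum_range_sub (fun j => Z (GA R (H j) φ))]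
    have : GA R (H 0) φ = φ := funext fun l => by rw [GA_apply, H0, List.map_id]
    rw [this]; ring

end Pool.Agent.Lib.helper28.Zp
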