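import Pool.Agent.Lib.helper28.ZpC

namespace Pool.Agent.Lib.helper28.Zp

variable {p : ℕ} [NeZero p] {n : ℕ}

def nu (p a : ℕ) : ℕ := p * (a / p) + (a + 1) % p

omit [NeZero p] in
theorem nu_cast (a : ℕ) : ((nu p a : ℕ) : ZMod p) = (a : ZMod p) + 1 := by
  simp [nu]

theorem nu_div (a : ℕ) : nu p a / p = a / p := by
  have hp := Nat.pos_of_ne_zero (NeZero.ne p)
  rw [nu, Nat.mul_add_div hp, Nat.div_eq_of_lt (Nat.mod_lt _ hp), add_zero]

theorem nu_lt {a b : ℕ} (h : a / p = b / p → a = b) : nu p a < nu p b ↔ a < b := by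
  by_cases e : a / p = b / p
  · rw [h e]; simp
  · have ea := nu_div (p := p) a
    have eb := nu_div (p := p) b
    rcases lt_or_gt_of_ne e with c | c
    · exact iff_of_true (Nat.lt_of_div_lt_div (by rwa [ea, eb])) (Nat.lt_of_div_lt_div c)
    · exact iff_of_false (not_lt.2 (Nat.lt_of_div_lt_div (by rwa [ea, eb])).le)
        (not_lt.2 (Nat.lt_of_div_lt_div c).le)

theorem tucker (hp : 1 < p) {ε : ℝ} (hε : 0 < ε) (lv : E n p → ℕ) (gr : E n p → ZMod p)
    (h1 : ∀ x ∈ S n p n, lv (sh x) = lv x ∧ gr (sh x) = gr x + 1)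
    (h2 : ∀ x ∈ S n p n, lv x < n)
    (h3 : ∀ x ∈ S n p n, ∀ y ∈ S n p n, dist x y ≤ ε → lv x = lv y → gr x = gr y) : False := by
  have hp0 : 0 < p := by omega
  have : Fact (1 < p) := ⟨hp⟩
  let lab : E n p → ℕ := fun x => p * lv x + (gr x).val
  have ldiv : ∀ x, lab x / p = lv x := fun x => by
    simp only [lab]
    rw [Nat.mul_add_div hp0, Nat.div_eq_of_lt (ZMod.val_lt _), add_zero]
  have lnu : ∀ x ∈ S n p n, lab (sh x) = nu p (lab x) := fun x hx => by
    rw [nu, ldiv]
    simp only [lab, (h1 x hx).1, (h1 x hx).2, ZMod.val_add, ZMod.val_one]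
    rw [add_assoc, Nat.mul_add_mod]
  have adm : ∀ k δ l, δ ≤ ε → Good n p k δ l → ∀ a ∈ l.map lab, ∀ b ∈ l.map lab,
      a / p = b / p → a = b := by
    intro k δ l hδ hl a ha b hb e
    obtain ⟨x, hx, rfl⟩ := List.mem_map.1 ha
    obtain ⟨y, hy, rfl⟩ := List.mem_map.1 hb
    rw [ldiv, ldiv] at e
    simp only [lab, e, h3 x (S_mono (hl.2.1 x hx)) y (S_mono (hl.2.1 y hy))
      ((hl.2.2 x hx y hy).trans hδ) e]
  let A : (List (ZMod p) → ZMod p) →ₗ[ZMod p] (List (E n p) → ZMod p) :=
    pb (List.map lab) ∘ₗ hat (fun a : ℕ => (a : ZMod p))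
  have Aapp : ∀ φ l, A φ l = hat (fun a : ℕ => (a : ZMod p)) φ (l.map lab) := fun _ _ => rfl
  set G0 : Module.End (ZMod p) (List (ZMod p) → ZMod p) := GA (ZMod p) (· + 1) with hG0
  set G : Module.End (ZMod p) (List (E n p) → ZMod p) := GA (ZMod p) sh with hG
  have AD : ∀ φ, DL (A φ) = A (DL φ) := fun φ => funext fun l => by
    show d (fun m => hat (fun a : ℕ => (a : ZMod p)) φ (m.map lab)) l = _
    rw [d_map lab l, d_hat]; rfl
  have AG : ∀ k δ, δ ≤ ε → ∀ i φ l, Good n p k δ l → (G ^ i) (A φ) l = A ((G0 ^ i) φ) l := by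
    intro k δ hδ i
    induction i with
    | zero => intro φ l _; simp
    | succ i ih =>
      intro φ l hl
      rw [pow_succ', Module.End.mul_apply, hG, GA_apply, ← hG, ih φ _ (Good_sh hl), Aapp, Aapp,
        pow_succ', Module.End.mul_apply]
      have e : (l.map sh).map lab = (l.map lab).map (nu p) := by
        rw [List.map_map, List.map_map]
        exact List.map_congr_left fun x hx => lnu x (S_mono (hl.2.1 x hx))
      rw [e, hat_map _ (· + 1) (nu p) nu_cast _ _ fun a ha b hb => nu_lt (adm k δ l hδ hl a ha b hb)]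
      rfl
  have AS : ∀ k δ, δ ≤ ε → ∀ j φ l, Good n p k δ l →
      sop p G j (A φ) l = A (sop p G0 j φ) l := by
    intro k δ hδ j φ l hl
    unfold sop
    split_ifs
    · have := AG k δ hδ 1 φ l hl
      simp only [pow_one] at this
      simp only [LinearMap.sub_apply, Module.End.one_apply, map_sub, Pi.sub_apply, this]
    · simp only [sig, LinearMap.sum_apply, map_sum, Finset.sum_apply, AG k δ hδ _ φ l hl]
  have Gsop : ∀ k δ j (φ : List (E n p) → ZMod p), (∀ l, Good n p k δ l → φ l = 0) →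
      ∀ l, Good n p k δ l → sop p G j φ l = 0 := by
    intro k δ j φ hφ l hl
    have hi : ∀ i l, Good n p k δ l → (G ^ i) φ l = 0 := by
      intro i
      induction i with
      | zero => intro l hl; simpa using hφ l hl
      | succ i ih => intro l hl; rw [pow_succ', Module.End.mul_apply, hG, GA_apply, ← hG, ih _ (Good_sh hl)]
    unfold sop
    split_ifs
    · have := hi 1 l hl
      simp only [pow_one] at this
      simp only [LinearMap.sub_apply, Module.End.one_apply, Pi.sub_apply, this, hφ l hl, sub_zero]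
    · simp only [sig, LinearMap.sum_apply, Finset.sum_apply, hi _ l hl, Finset.sum_const_zero]
  have pz : ((p : ℕ) : Module.End (ZMod p) (List (ZMod p) → ZMod p)) = 0 := by
    rw [← map_natCast (algebraMap (ZMod p) _), ZMod.natCast_self, map_zero]
  have cD0 := comm_DG (R := ZMod p) (fun x : ZMod p => x + 1)
  have cD := comm_DG (R := ZMod p) (sh : E n p → E n p)
  have DD : ∀ φ : List (ZMod p) → ZMod p, DL (DL φ) = 0 := fun φ => funext fun l => dd l φ
  have key : ∀ k, k < n + 1 → ∀ δ, 0 < δ → δ ≤ ε →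
      ∃ T : (List (E n p) → ZMod p) →ₗ[ZMod p] ZMod p,
      (∀ φ, (∀ l, Good n p k δ l → φ l = 0) → T φ = 0) ∧ (∀ φ, T (sop p G k (DL φ)) = 0) ∧
      ∃ α, Nm α ∧ sop p G0 (k + 1) (DL α) = 0 ∧ T (A (sig p G0 α)) = 1 := by
    intro k
    induction k with
    | zero =>
      intro _ δ hδ _
      let x0 : E n p := Pi.single (0, 0) 1
      let v : List (ZMod p) → ZMod p := fun l => if l = [] then 1 else 0
      have hv : sop p G0 (1 + 1) v = 0 := by
        funext l
        simp [sop, hG0, GA_apply, v]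
      obtain ⟨α, a1, a2⟩ := solve (p := p) 1 (DL v) rfl (Nm_d fun l1 a l2 => by simp [v]) (by
        rw [← Module.End.mul_apply, ← (comm_sop cD0 p _).eq, Module.End.mul_apply, hv, map_zero])
      refine ⟨LinearMap.proj [x0], fun φ h => h _ ⟨rfl, ?_, ?_⟩, fun φ => ?_, α, a1, ?_, ?_⟩
      · simpa using S_single (p := p) (0 : Fin (n + 1))
      · simpa using hδ.le
      · simp [sop, hG, GA_apply, DL_apply, d]
      · rw [← Module.End.mul_apply, ← (comm_sop cD0 p _).eq, Module.End.mul_apply, zero_add, a2, DD]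
      · have : sig p G0 α = DL v := by rw [← a2]; simp [sop, hG0]
        rw [this, LinearMap.proj_apply, Aapp, hat_apply]
        simp [sgn, srt, DL_apply, d, v]
    | succ k ih =>
      intro hk δ hδ hδ'
      obtain ⟨T, t2, t3, α, a1, a2, a3⟩ := ih (by omega) (δ / 2) (by positivity) (by linarith)
      obtain ⟨U, u2, u3⟩ := extend hk hδ (T ∘ₗ sop p G k)
        (fun φ h => t2 _ (Gsop _ _ _ φ h)) t3
      obtain ⟨β, b1, b2⟩ := solve (p := p) k (DL α) rfl (Nm_d a1) a2
      refine ⟨U, u2, fun φ => ?_, β, b1, ?_, ?_⟩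
      · rw [← Module.End.mul_apply, ← (comm_sop cD p _).eq, Module.End.mul_apply, u3,
          LinearMap.comp_apply, ← Module.End.mul_apply, sop_sop (GA_pow_one sh_p)]
        simp
      · rw [sop_two, ← Module.End.mul_apply, ← (comm_sop cD0 p _).eq, Module.End.mul_apply, b2, DD]
      · rw [← rop_sop G0 pz k, Module.End.mul_apply, b2, ← Module.End.mul_apply,
          ← (comm_rop cD0 p _).eq, Module.End.mul_apply, ← AD, u3, LinearMap.comp_apply]
        refine Eq.trans ?_ a3
        rw [← sop_rop G0 pz k, Module.End.mul_apply, ← sub_eq_zero, ← map_sub]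
        exact t2 _ fun l hl => sub_eq_zero.2 (AS _ _ (by linarith) _ _ l hl)
  obtain ⟨T, t2, -, α, a1, -, a3⟩ := key n (by omega) ε hε le_rfl
  rw [t2] at a3
  · exact zero_ne_one a3
  · intro l hl
    rw [Aapp]
    refine hat_zero _ (Nm_sig _ p a1) fun hn => ?_
    have h4 : ((l.map lab).map (· / p)).Nodup :=
      hn.map_on fun a ha b hb e => adm _ _ l le_rfl hl a ha b hb e
    have h5 : (l.map lab).map (· / p) ⊆ List.range n := by
      intro a ha
      obtain ⟨b, hb, rfl⟩ := List.mem_map.1 ha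
      obtain ⟨x, hx, rfl⟩ := List.mem_map.1 hb
      rw [List.mem_range, ldiv]
      exact h2 x (hl.2.1 x hx)
    have := (h4.subperm h5).length_le
    simp [hl.1] at this

/-- `U` is a set of coordinates whose values exceed all other values by `η` -/
def Sep (η : ℝ) (y : ZMod p → ℝ) (U : Finset (ZMod p)) : Prop :=
  U.Nonempty ∧ U ≠ Finset.univ ∧ ∀ a ∈ U, ∀ b ∉ U, y b + η ≤ y a

theorem exists_sep {η : ℝ} (hη : 0 < η) (y : ZMod p → ℝ) {a b : ZMod p} (h : y b + p * η ≤ y a) :
    ∃ U, Sep η y U := by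
  classical
  have : ∃ t : Fin p, ∀ c, ¬ (y b + t * η < y c ∧ y c ≤ y b + (t + 1) * η) := by
    by_contra hc
    push Not at hc
    choose g hg using hc
    have hi : Function.Injective g := by
      intro s t e
      have h1 := hg s
      have h2 := hg t
      rw [e] at h1
      have h3 : (s : ℝ) < t + 1 := by nlinarith [h1.1, h2.2]
      have h4 : (t : ℝ) < s + 1 := by nlinarith [h1.2, h2.1]
      have h5 : (s : ℕ) < t + 1 := by exact_mod_cast h3
      have h6 : (t : ℕ) < s + 1 := by exact_mod_cast h4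
      exact Fin.ext (by omega)
    have hs : Function.Surjective g :=
      ((Fintype.bijective_iff_injective_and_card g).2 ⟨hi, by simp⟩).2
    obtain ⟨t, ht⟩ := hs b
    have := (hg t).1
    rw [ht] at this
    have : (0 : ℝ) ≤ t * η := by positivity
    linarith
  obtain ⟨t, ht⟩ := this
  have tp : (t : ℝ) < p := by exact_mod_cast t.2
  refine ⟨Finset.univ.filter fun c => y b + t * η < y c, ⟨a, ?_⟩, fun e => ?_, fun c hc c' hc' => ?_⟩
  · simp only [Finset.mem_filter, Finset.mem_univ, true_and]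
    nlinarith
  · have : b ∈ Finset.univ.filter fun c => y b + t * η < y c := by rw [e]; exact Finset.mem_univ _
    simp only [Finset.mem_filter, Finset.mem_univ, true_and] at this
    have : (0 : ℝ) ≤ t * η := by positivity
    linarith
  · simp only [Finset.mem_filter, Finset.mem_univ, true_and, not_lt] at hc hc'
    have := ht c
    push Not at this
    have := this hc
    linarith

theorem sep_unique {η : ℝ} {y y' : ZMod p → ℝ} {U U' : Finset (ZMod p)} (h : Sep η y U)
    (h' : Sep η y' U') (hc : U.card = U'.card) (hd : ∀ c, |y c - y' c| < η) : U = U' := by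
  classical
  by_contra hne
  obtain ⟨a, ha, ha'⟩ : ∃ a ∈ U, a ∉ U' := by
    by_contra hh
    push Not at hh
    exact hne (Finset.eq_of_subset_of_card_le hh hc.ge)
  obtain ⟨b, hb, hb'⟩ : ∃ b ∈ U', b ∉ U := by
    by_contra hh
    push Not at hh
    exact hne (Finset.eq_of_subset_of_card_le hh hc.le).symm
  have e1 := h.2.2 a ha b hb'
  have e2 := h'.2.2 b hb a ha'
  have e3 := abs_lt.1 (hd a)
  have e4 := abs_lt.1 (hd b)
  linarith [e3.1, e3.2, e4.1, e4.2]

theorem sep_card {η : ℝ} {y : ZMod p → ℝ} {U : Finset (ZMod p)} (h : Sep η y U) :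
    0 < U.card ∧ U.card < p := by
  refine ⟨h.1.card_pos, ?_⟩
  have := Finset.card_lt_univ_of_notMem (s := U) (x := (not_forall.1 fun hh =>
    h.2.1 (Finset.eq_univ_of_forall hh)).choose) (not_forall.1 fun hh =>
    h.2.1 (Finset.eq_univ_of_forall hh)).choose_spec
  rwa [ZMod.card] at this

theorem sep_add {η : ℝ} {y : ZMod p → ℝ} {U : Finset (ZMod p)} (t : ZMod p) (h : Sep η y U) :
    Sep η (fun c => y (c - t)) (U.map (Equiv.addRight t).toEmbedding) := by
  refine ⟨h.1.map, fun e => h.2.1 (Finset.eq_univ_of_forall fun c => ?_), fun a ha b hb => ?_⟩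
  · have : c + t ∈ U.map (Equiv.addRight t).toEmbedding := by rw [e]; exact Finset.mem_univ _
    simpa using this
  · simp only [Finset.mem_map_equiv, Equiv.addRight_symm, Equiv.coe_addRight,
      ← sub_eq_add_neg] at ha hb
    exact h.2.2 _ ha _ hb

theorem S_compact : IsCompact (S n p n) := by
  refine Metric.isCompact_of_isClosed_isBounded ?_
    ((Metric.isBounded_closedBall (x := 0) (r := 1)).subset fun x hx => by simpa using S_norm hx)
  simp only [S, Set.setOf_and, Set.setOf_forall]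
  refine (isClosed_iInter fun i => isClosed_le continuous_const (continuous_apply i)).inter
    ((isClosed_eq (by fun_prop) continuous_const).inter ((isClosed_iInter fun i =>
      isClosed_iInter fun c => isClosed_iInter fun c' => isClosed_iInter fun _ =>
        isClosed_eq (by fun_prop) continuous_const).inter (isClosed_iInter fun i =>
      isClosed_iInter fun c => isClosed_iInter fun _ =>
        isClosed_eq (by fun_prop) continuous_const)))

/-- Borsuk-Ulam type theorem for the cyclic group of prime order -/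
theorem bu (hp : p.Prime) {m : ℕ} (hn : m * (p - 1) ≤ n) (f : E n p → Fin m → ZMod p → ℝ)
    (hf : ContinuousOn f (S n p n)) (he : ∀ x ∈ S n p n, ∀ j c, f (sh x) j c = f x j (c - 1)) :
    ∃ x ∈ S n p n, ∀ j c c', f x j c = f x j c' := by
  classical
  have : Fact p.Prime := ⟨hp⟩
  by_contra hne
  push Not at hne
  let g : (Fin m → ZMod p → ℝ) → Fin m × ZMod p × ZMod p → ℝ := fun y q => y q.1 q.2.1 - y q.1 q.2.2
  have gc : Continuous g := by fun_prop
  obtain ⟨x0, hx0, hm⟩ := S_compact.exists_isMinOn ⟨_, S_mono (S_single 0)⟩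
    (gc.comp_continuousOn hf).norm
  have m0 : 0 < ‖g (f x0)‖ := norm_pos_iff.2 fun e => by
    obtain ⟨j, c, c', h⟩ := hne x0 hx0
    exact h (sub_eq_zero.1 (congrFun e (j, c, c')))
  have p0 : (0 : ℝ) < p := by exact_mod_cast hp.pos
  set η := ‖g (f x0)‖ / p with hη
  have η0 : 0 < η := by positivity
  have ex : ∀ x ∈ S n p n, ∃ j U, Sep η (f x j) U := by
    intro x hx
    have h1 : ‖g (f x0)‖ ≤ ‖g (f x)‖ := hm hx
    obtain ⟨q, hq⟩ : ∃ q, ‖g (f x0)‖ ≤ ‖g (f x) q‖ := by
      by_contra h'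
      push Not at h'
      exact absurd ((pi_norm_lt_iff m0).2 h') (not_lt.2 h1)
    have e : ‖g (f x0)‖ = p * η := by rw [hη]; field_simp
    rw [e, Real.norm_eq_abs, le_abs] at hq
    rcases hq with hq | hq
    · exact ⟨q.1, exists_sep η0 _ (a := q.2.1) (b := q.2.2) (by simp only [g] at hq; linarith)⟩
    · exact ⟨q.1, exists_sep η0 _ (a := q.2.2) (b := q.2.1) (by simp only [g] at hq; linarith)⟩
  obtain ⟨δ, hδ, hu⟩ := Metric.uniformContinuousOn_iff.1
    (S_compact.uniformContinuousOn_of_continuous hf) _ η0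
  let Q : E n p → Set ℕ := fun x =>
    {t | ∃ (j : Fin m) (U : Finset (ZMod p)), Sep η (f x j) U ∧ t = j * (p - 1) + (U.card - 1)}
  have ch : ∀ x, ∃ U : Finset (ZMod p), x ∈ S n p n →
      ∃ j : Fin m, Sep η (f x j) U ∧ sInf (Q x) = j * (p - 1) + (U.card - 1) := by
    intro x
    by_cases hx : x ∈ S n p n
    · obtain ⟨j, U, h⟩ := ex x hx
      obtain ⟨j, U, h⟩ := Nat.sInf_mem (s := Q x) ⟨_, j, U, h, rfl⟩
      exact ⟨U, fun _ => ⟨j, h⟩⟩
    · exact ⟨∅, fun h => absurd h hx⟩
  choose W hW using ch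
  have code : ∀ {y y' : ZMod p → ℝ} {U U' : Finset (ZMod p)} {j j' : Fin m}, Sep η y U →
      Sep η y' U' → (j : ℕ) * (p - 1) + (U.card - 1) = j' * (p - 1) + (U'.card - 1) →
      j = j' ∧ U.card = U'.card := by
    intro y y' U U' j j' h h' e
    have c1 := sep_card h
    have c2 := sep_card h'
    have e1 : ((j : ℕ) * (p - 1) + (U.card - 1)) / (p - 1) = j := by
      rw [mul_comm, Nat.mul_add_div (by omega), Nat.div_eq_of_lt (by omega), add_zero]
    have e2 : ((j' : ℕ) * (p - 1) + (U'.card - 1)) / (p - 1) = j' := by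
      rw [mul_comm, Nat.mul_add_div (by omega), Nat.div_eq_of_lt (by omega), add_zero]
    have e3 : j = j' := Fin.ext (by rw [← e1, ← e2, e])
    subst e3
    exact ⟨rfl, by omega⟩
  refine tucker hp.one_lt (half_pos hδ) (fun x => sInf (Q x))
    (fun x => (∑ a ∈ W x, a) / (W x).card) (fun x hx => ?_) (fun x hx => ?_)
    fun x hx y hy hxy e => ?_
  · have hsh : ∀ j, f (sh x) j = fun c => f x j (c - 1) := fun j => funext (he x hx j)
    have hQ : Q (sh x) = Q x := by
      ext t
      constructor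
      · rintro ⟨j, U, h, rfl⟩
        refine ⟨j, _, ?_, by rw [Finset.card_map (Equiv.addRight (-1)).toEmbedding]⟩
        have := sep_add (-1) h
        simpa [hsh] using this
      · rintro ⟨j, U, h, rfl⟩
        exact ⟨j, _, by rw [hsh]; exact sep_add 1 h, by rw [Finset.card_map]⟩
    refine ⟨by rw [hQ], ?_⟩
    obtain ⟨j, a1, a2⟩ := hW x hx
    obtain ⟨j', b1, b2⟩ := hW _ (S_sh hx)
    have a3 := sep_add 1 a1
    rw [← hsh] at a3
    rw [hQ, a2] at b2
    obtain ⟨rfl, c⟩ := code a1 b1 b2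
    have : W (sh x) = (W x).map (Equiv.addRight 1).toEmbedding :=
      sep_unique b1 a3 (by rw [Finset.card_map, c]) fun c => by simpa using η0
    have c1 := sep_card a1
    have c2 : ((W x).card : ZMod p) ≠ 0 := by
      rw [Ne, ZMod.natCast_eq_zero_iff]
      exact Nat.not_dvd_of_pos_of_lt c1.1 c1.2
    simp only [this, Finset.card_map, Finset.sum_map, Equiv.coe_toEmbedding, Equiv.coe_addRight,
      Finset.sum_add_distrib, Finset.sum_const, nsmul_eq_mul, mul_one]
    field_simp
  · obtain ⟨j, a1, a2⟩ := hW x hx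
    have c1 := sep_card a1
    have c2 : ((j : ℕ) + 1) * (p - 1) ≤ m * (p - 1) := Nat.mul_le_mul_right _ j.2
    rw [add_mul] at c2
    show sInf (Q x) < n
    omega
  · obtain ⟨j, a1, a2⟩ := hW x hx
    obtain ⟨j', b1, b2⟩ := hW y hy
    obtain ⟨rfl, c⟩ := code a1 b1 (by rw [← a2, ← b2]; exact e)
    have e1 := hu x hx y hy (by linarith)
    have : W x = W y := sep_unique a1 b1 c fun c => by
      rw [← Real.dist_eq]
      exact ((dist_le_pi_dist (f x j) (f y j) c).trans (dist_le_pi_dist (f x) (f y) j)).trans_lt e1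
    simp only [this]

end Pool.Agent.Lib.helper28.Zp
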